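import Mathlib
import Pool.Agent.N751.FR.Stm2

/-!
# Project FR, part RH3 (helper401): the weight and the number of the bad places
-/

set_option autoImplicit false

namespace Pool.Agent.N401.FR

open Polynomial UniqueFactorizationMonoid Pool.Agent.N751.FR

section

variable {K : Type} [Field K]

/-- Mason-Stothers, with the degree of the Wronskian -/
theorem mason [DecidableEq K] {a b c : K[X]} (ha : a ≠ 0) (hb : b ≠ 0) (hc : c ≠ 0)
    (hab : IsCoprime a b) (hsum : a + b + c = 0) (hd : ¬ (derivative a = 0 ∧ derivative b = 0)) :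
    wronskian a b ≠ 0 ∧ a.natDegree + b.natDegree + c.natDegree ≤
      (wronskian a b).natDegree + (radical (a * b * c)).natDegree := by
  have hw : wronskian a b ≠ 0 := fun h => hd (hab.wronskian_eq_zero_iff.mp h)
  refine ⟨hw, ?_⟩
  set w := wronskian a b with wab
  have hbc : IsCoprime b c := by
    have h1 : c = -(a + b * 1) := by linear_combination hsum
    rw [h1, IsCoprime.neg_right_iff]
    exact IsCoprime.add_mul_left_right hab.symm 1
  have hca : IsCoprime c a := by
    have h1 : c = -(b + a * 1) := by linear_combination hsum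
    rw [h1, IsCoprime.neg_left_iff]
    exact (IsCoprime.add_mul_left_right hab 1).symm
  have wbc : w = wronskian b c := wronskian_eq_of_sum_zero hsum
  have abc_dr_dvd_w : EuclideanDomain.divRadical (a * b * c) ∣ w := by
    have adr_dvd_w := divRadical_dvd_wronskian_left a b
    have bdr_dvd_w := divRadical_dvd_wronskian_right a b
    have cdr_dvd_w := divRadical_dvd_wronskian_right b c
    rw [← wab] at adr_dvd_w bdr_dvd_w
    rw [← wbc] at cdr_dvd_w
    rw [EuclideanDomain.divRadical_mul (hca.symm.mul_left hbc), EuclideanDomain.divRadical_mul hab]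
    exact (hca.divRadical.symm.mul_left hbc.divRadical).mul_dvd
      (hab.divRadical.mul_dvd adr_dvd_w bdr_dvd_w) cdr_dvd_w
  have hn := natDegree_le_of_dvd abc_dr_dvd_w hw
  have ab_nz := mul_ne_zero ha hb
  have abc_nz := mul_ne_zero ab_nz hc
  calc
    a.natDegree + b.natDegree + c.natDegree = (a * b * c).natDegree := by
      rw [Polynomial.natDegree_mul ab_nz hc, Polynomial.natDegree_mul ha hb]
    _ = ((EuclideanDomain.divRadical (a * b * c)) * (radical (a * b * c))).natDegree := by
      rw [mul_comm _ (radical _), EuclideanDomain.radical_mul_divRadical]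
    _ = (EuclideanDomain.divRadical (a * b * c)).natDegree + (radical (a * b * c)).natDegree := by
      rw [← Polynomial.natDegree_mul (EuclideanDomain.divRadical_ne_zero abc_nz) radical_ne_zero]
    _ ≤ _ := by omega

/-- the Wronskian of two polynomials of the same degree -/
theorem wr_deg {a b : K[X]} {N : ℕ} (ha : a.natDegree = N) (hb : b.natDegree = N)
    (hw : wronskian a b ≠ 0) : (wronskian a b).natDegree + 2 ≤ 2 * N := by
  have h1 := natDegree_wronskian_lt_add hw
  by_contra hcon
  have h2 : (wronskian a b).natDegree = 2 * N - 1 := by omega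
  have hN : 1 ≤ N := by omega
  obtain ⟨n, rfl⟩ : ∃ n, N = n + 1 := ⟨N - 1, by omega⟩
  have h3 : (wronskian a b).coeff ((n + 1) + n) = 0 := by
    unfold wronskian
    rw [coeff_sub, coeff_mul_add_eq_of_natDegree_le (le_of_eq ha)
      ((natDegree_derivative_le b).trans (by omega)), coeff_derivative]
    have h4 : (derivative a * b).coeff ((n + 1) + n) = (derivative a).coeff n * b.coeff (n + 1) := by
      rw [add_comm (n + 1) n]
      exact coeff_mul_add_eq_of_natDegree_le ((natDegree_derivative_le a).trans (by omega))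
        (le_of_eq hb)
    rw [h4, coeff_derivative]
    ring
  have h5 : (wronskian a b).leadingCoeff = 0 := by
    rw [leadingCoeff, h2, ← h3]
    congr 1
    omega
  exact hw (leadingCoeff_eq_zero.1 h5)

/-- the local inequality -/
theorem loc (a c : ℕ) (_h : a = 0 ∨ c = 0) (h' : 1 ≤ a ∨ 1 ≤ c) :
    6 + muA a c ≤ (if ¬ 3 ∣ a ∨ ¬ 2 ∣ c then 6 else 0) + 2 * a + 3 * c := by
  unfold muA
  split_ifs <;> omega

theorem sum_mult {S : Finset K[X]} (hS : ∀ P ∈ S, P.Monic ∧ Irreducible P) {F : K[X]}
    (hF : F ≠ 0) : ∑ P ∈ S, multiplicity P F * P.natDegree ≤ F.natDegree := by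
  have h1 : ∏ P ∈ S, P ^ multiplicity P F ∣ F := by
    apply Finset.prod_dvd_of_coprime
    · intro P hP Q hQ hne
      apply IsCoprime.pow
      rw [(hS P hP).2.coprime_iff_not_dvd]
      intro hd
      exact hne (eq_of_monic_of_associated (hS P hP).1 (hS Q hQ).1
        ((hS P hP).2.associated_of_dvd (hS Q hQ).2 hd))
    · intro P _
      exact pow_multiplicity_dvd P F
  have h2 := natDegree_le_of_dvd h1 hF
  rw [natDegree_prod_of_monic S (fun P => P ^ multiplicity P F)
    fun P hP => (hS P hP).1.pow _] at h2
  simpa [natDegree_pow] using h2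

end

section

variable {K : Type} [Field K]

open Classical in
theorem sum_ite {S T : Finset K[X]} (h : T ⊆ S) (f : K[X] → ℕ) :
    ∑ P ∈ S, (if P ∈ T then f P else 0) = ∑ P ∈ T, f P := by
  rw [← Finset.sum_filter]
  congr 1
  ext P
  rw [Finset.mem_filter]
  exact ⟨fun h' => h'.2, fun h' => ⟨h h', h'⟩⟩

open Classical in
theorem sum_e1 {S T : Finset K[X]} (h : T ⊆ S) (d m : K[X] → ℕ) :
    ∑ P ∈ S, (6 + (if P ∈ T then m P else 0)) * d P =
      6 * ∑ P ∈ S, d P + ∑ P ∈ T, m P * d P := by
  rw [← sum_ite h (fun P => m P * d P), Finset.mul_sum, ← Finset.sum_add_distrib]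
  refine Finset.sum_congr rfl fun P _ => ?_
  split_ifs <;> ring

open Classical in
theorem sum_e2 {S T : Finset K[X]} (h : T ⊆ S) (d a c : K[X] → ℕ) :
    ∑ P ∈ S, ((if P ∈ T then 6 else 0) + 2 * a P + 3 * c P) * d P =
      6 * ∑ P ∈ T, d P + 2 * ∑ P ∈ S, a P * d P + 3 * ∑ P ∈ S, c P * d P := by
  rw [← sum_ite h d, Finset.mul_sum, Finset.mul_sum, Finset.mul_sum, ← Finset.sum_add_distrib,
    ← Finset.sum_add_distrib]
  refine Finset.sum_congr rfl fun P _ => ?_
  split_ifs <;> ring

end

open Classical in
theorem t : StmRH3 := by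
  intro K _ _ A B hc hB hN
  set D := A - 1728 * B with hD
  set N := max A.natDegree B.natDegree with hNdef
  have h1728 : (1728 : K) ≠ 0 := by norm_num
  have hC : (1728 : K[X]) = C (1728 : K) := (map_ofNat C 1728).symm
  have hu : IsUnit (1728 : K[X]) := by
    rw [hC]; exact isUnit_C.2 (isUnit_iff_ne_zero.2 h1728)
  have hBN : B.natDegree ≤ N := le_max_right _ _
  have hAN : A.natDegree ≤ N := le_max_left _ _
  have hA0 : A ≠ 0 := by
    intro h
    rw [h, isCoprime_zero_left] at hc
    have h1 := natDegree_eq_zero_of_isUnit hc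
    rw [h, natDegree_zero] at hNdef
    omega
  have hD0 : D ≠ 0 := by
    intro h
    have h1 : A = 1728 * B := by linear_combination h
    have h2 : IsUnit B := by
      rw [h1] at hc
      exact hc.isUnit_of_dvd' (dvd_mul_left _ _) dvd_rfl
    have h3 := natDegree_eq_zero_of_isUnit h2
    have h4 : A.natDegree = 0 := by
      rw [h1]; exact natDegree_eq_zero_of_isUnit (hu.mul h2)
    omega
  have hb0 : -(1728 * B) ≠ 0 := neg_ne_zero.2 (mul_ne_zero hu.ne_zero hB)
  have hco : IsCoprime A (-(1728 * B)) := by
    rw [IsCoprime.neg_right_iff]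
    exact (isCoprime_mul_unit_left_right hu A B).2 hc
  have hbdeg : (-(1728 * B)).natDegree = B.natDegree := by
    rw [natDegree_neg, hC, natDegree_C_mul h1728]
  have hDN : D.natDegree ≤ N := by
    have h1 : D = A + -(1728 * B) := by rw [hD]; ring
    rw [h1]
    refine (natDegree_add_le _ _).trans (max_le hAN ?_)
    rw [hbdeg]; exact hBN
  have hDlt : A.natDegree < B.natDegree → D.natDegree = B.natDegree := by
    intro h
    have h1 : D = A + -(1728 * B) := by rw [hD]; ring
    rw [h1, natDegree_add_eq_right_of_natDegree_lt (by rw [hbdeg]; exact h), hbdeg]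
  have hder : ¬ (derivative A = 0 ∧ derivative (-(1728 * B)) = 0) := by
    rintro ⟨h1, h2⟩
    have h3 := Polynomial.derivative_eq_zero.1 h1
    have h4 := Polynomial.derivative_eq_zero.1 h2
    rw [hbdeg] at h4
    omega
  obtain ⟨hw, hms⟩ := mason hA0 hb0 (neg_ne_zero.2 hD0) hco (by rw [hD]; ring) hder
  rw [hbdeg, natDegree_neg] at hms
  have hass : Associated (A * -(1728 * B) * -D) (A * D * B) := by
    have e : A * -(1728 * B) * -D = (A * D * B) * 1728 := by ring
    rw [e]
    exact (associated_mul_unit_left _ _ hu)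
  rw [radical_eq_of_associated hass] at hms
  have hwlt := natDegree_wronskian_lt_add hw
  rw [hbdeg] at hwlt
  -- infinity is one of the special points
  have hn : N + 2 ≤ (radical (A * D * B)).natDegree +
      (if A.natDegree = N ∧ B.natDegree = N ∧ D.natDegree = N then 0 else 1) := by
    split_ifs with h
    · have h1 := wr_deg h.1 (hbdeg.trans h.2.1) hw
      omega
    · have hs : A + -(1728 * B) + -D = 0 := by rw [hD]; ring
      have e1 := wronskian_eq_of_sum_zero hs
      have hs' : -(1728 * B) + -D + A = 0 := by rw [hD]; ring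
      have e2 := wronskian_eq_of_sum_zero hs'
      have l1 := natDegree_wronskian_lt_add (e1 ▸ hw)
      have l2 := natDegree_wronskian_lt_add (e2 ▸ e1 ▸ hw)
      rw [← e1, hbdeg, natDegree_neg] at l1
      rw [← e2, ← e1, natDegree_neg] at l2
      omega
  set U : Finset K[X] := (normalizedFactors (A * D * B)).toFinset with hU
  have hUp : ∀ P ∈ U, P.Monic ∧ Irreducible P := by
    intro P hP
    rw [hU, Multiset.mem_toFinset] at hP
    have h1 := irreducible_of_normalized_factor P hP
    refine ⟨?_, h1⟩
    rw [← normalize_normalized_factor P hP]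
    exact monic_normalize h1.ne_zero
  have hradU : (radical (A * D * B)).natDegree = ∑ P ∈ U, P.natDegree := by
    have h1 : radical (A * D * B) = ∏ P ∈ U, P := by
      unfold radical
      rw [hU, toFinset_normalizedFactors]
      rfl
    rw [h1, natDegree_prod_of_monic U (fun P => P) fun P hP => (hUp P hP).1]
  rw [hradU] at hn
  have hbad : badPl A B = U.filter fun P =>
      P ∣ B ∨ ¬ 3 ∣ multiplicity P A ∨ ¬ 2 ∣ multiplicity P D := rfl
  have hloc : ∀ P ∈ U, 6 + (if P ∈ badPl A B then mu A B P else 0) ≤
      (if P ∈ badPl A B then 6 else 0) + 2 * multiplicity P A + 3 * multiplicity P D := by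
    intro P hP
    have hmem : P ∈ badPl A B ↔ P ∣ B ∨ ¬ 3 ∣ multiplicity P A ∨ ¬ 2 ∣ multiplicity P D := by
      rw [hbad, Finset.mem_filter]
      exact ⟨fun h => h.2, fun h => ⟨hP, h⟩⟩
    have hirr := (hUp P hP).2
    have hnu := hirr.not_isUnit
    by_cases hPB : P ∣ B
    · have h1 : P ∈ badPl A B := hmem.2 (Or.inl hPB)
      rw [if_pos h1, if_pos h1]
      unfold mu
      rw [if_pos hPB]
      omega
    · have hmu : mu A B P = muA (multiplicity P A) (multiplicity P D) := by
        unfold mu
        rw [if_neg hPB]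
      have hmem' : P ∈ badPl A B ↔ ¬ 3 ∣ multiplicity P A ∨ ¬ 2 ∣ multiplicity P D := by
        rw [hmem]
        exact ⟨fun h => h.resolve_left hPB, Or.inr⟩
      have hnot : ¬ (P ∣ A ∧ P ∣ D) := by
        rintro ⟨h1, h2⟩
        have h3 : P ∣ 1728 * B := by
          have h4 : 1728 * B = A - D := by rw [hD]; ring
          rw [h4]; exact dvd_sub h1 h2
        exact hPB ((IsUnit.dvd_mul_left hu).1 h3)
      have hor : P ∣ A ∨ P ∣ D := by
        have h2 : P ∣ A * D * B := by
          rw [hU, Multiset.mem_toFinset] at hP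
          exact dvd_of_mem_normalizedFactors hP
        rcases hirr.prime.dvd_or_dvd h2 with h3 | h3
        · exact hirr.prime.dvd_or_dvd h3
        · exact absurd h3 hPB
      have ha0 : multiplicity P A = 0 ↔ ¬ P ∣ A := multiplicity_eq_zero
      have hd0 : multiplicity P D = 0 ↔ ¬ P ∣ D := multiplicity_eq_zero
      have hl := loc (multiplicity P A) (multiplicity P D)
        (by
          by_cases h : P ∣ A
          · exact Or.inr (hd0.2 fun h' => hnot ⟨h, h'⟩)
          · exact Or.inl (ha0.2 h))
        (by
          rcases hor with h | h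
          · left
            have := mt ha0.1 (not_not.2 h)
            omega
          · right
            have := mt hd0.1 (not_not.2 h)
            omega)
      rw [hmu]
      by_cases hb : P ∈ badPl A B
      · rw [if_pos hb, if_pos hb]
        rw [if_pos (hmem'.1 hb)] at hl
        exact hl
      · rw [if_neg hb, if_neg hb]
        rw [if_neg (mt hmem'.2 hb)] at hl
        omega
  have hsum : ∑ P ∈ U, (6 + (if P ∈ badPl A B then mu A B P else 0)) * P.natDegree ≤
      ∑ P ∈ U, ((if P ∈ badPl A B then 6 else 0) + 2 * multiplicity P A +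
        3 * multiplicity P D) * P.natDegree :=
    Finset.sum_le_sum fun P hP => Nat.mul_le_mul_right _ (hloc P hP)
  have hsubU : badPl A B ⊆ U := by
    rw [hbad]; exact Finset.filter_subset _ _
  have e1 := sum_e1 hsubU (fun P => P.natDegree) (mu A B)
  have e2 := sum_e2 hsubU (fun P => P.natDegree) (fun P => multiplicity P A)
    (fun P => multiplicity P D)
  have hsA := sum_mult hUp hA0
  have hsD := sum_mult hUp hD0
  rw [e1, e2] at hsum
  have hinf : 6 * (if A.natDegree = N ∧ B.natDegree = N ∧ D.natDegree = N then 0 else 1) +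
      muInf A B ≤ (if InfBad A B then 6 else 0) + 2 * (N - A.natDegree) + 3 * (N - D.natDegree) := by
    have hmI : muInf A B = if B.natDegree < A.natDegree then 0 else
      muA (B.natDegree - A.natDegree) (B.natDegree - D.natDegree) := rfl
    have hIB : InfBad A B ↔ (B.natDegree < A.natDegree ∨ ¬ 3 ∣ (B.natDegree - A.natDegree) ∨
      ¬ 2 ∣ (B.natDegree - D.natDegree)) := Iff.rfl
    rw [hmI]
    clear_value D
    clear hmI hloc hsum e1 e2 hsubU hbad hsA hsD hradU hUp hn hms hwlt
    rcases lt_trichotomy A.natDegree B.natDegree with h | h | h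
    · have h1 := hDlt h
      rw [if_neg (by omega), if_neg (by omega), h1, Nat.sub_self]
      have h2 := loc (B.natDegree - A.natDegree) 0 (Or.inr rfl) (Or.inl (by omega))
      have h3 : (if ¬ 3 ∣ (B.natDegree - A.natDegree) ∨ ¬ 2 ∣ 0 then 6 else 0) ≤
          (if InfBad A B then 6 else 0) := by
        by_cases h4 : InfBad A B
        · rw [if_pos h4]; split_ifs <;> omega
        · rw [if_neg h4, if_neg]
          intro h5
          apply h4
          rw [hIB, h1, Nat.sub_self]
          exact Or.inr h5
      omega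
    · by_cases hDe : D.natDegree = N
      · rw [if_pos (by omega), if_neg (by omega), h, hDe]
        have h1 : B.natDegree - N = 0 := by omega
        rw [h1, Nat.sub_self]
        have h2 : muA 0 0 = 0 := rfl
        omega
      · rw [if_neg (by omega), if_neg (by omega), h, Nat.sub_self]
        have h2 := loc 0 (B.natDegree - D.natDegree) (Or.inl rfl) (Or.inr (by omega))
        have h3 : (if ¬ 3 ∣ 0 ∨ ¬ 2 ∣ (B.natDegree - D.natDegree) then 6 else 0) ≤
            (if InfBad A B then 6 else 0) := by
          by_cases h4 : InfBad A B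
          · rw [if_pos h4]; split_ifs <;> omega
          · rw [if_neg h4, if_neg]
            intro h5
            apply h4
            rw [hIB, h, Nat.sub_self]
            exact Or.inr h5
        omega
    · have h4 : InfBad A B := hIB.2 (Or.inl h)
      rw [if_pos h4, if_neg (by omega), if_pos h]
      omega
  have hg : 6 * gam A B = 6 * ∑ P ∈ badPl A B, P.natDegree + (if InfBad A B then 6 else 0) := by
    unfold gam
    split_ifs <;> ring
  have hwt : wt A B = N + ∑ P ∈ badPl A B, mu A B P * P.natDegree + muInf A B := rfl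
  rw [hwt, hg]
  omega

end Pool.Agent.N401.FR
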